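import Mathlib

set_option autoImplicit false

/-!
# Minimal dominating sets and the reconfiguration graph
-/

namespace Pool.Agent.Work.MP_fb0e57_co

variable {V : Type*} [DecidableEq V]


/-- `S` dominates `G`: every vertex lies in `S` or has a neighbour in `S`. -/
def IsDominating (G : SimpleGraph V) (S : Finset V) : Prop :=
  ∀ v : V, v ∈ S ∨ ∃ u ∈ S, G.Adj v u

/-- `S` is a minimal dominating set of `G`: it dominates `G`, and for every `v ∈ S` the set
`S \ {v}` does not dominate `G`. -/
def IsMinimalDominating (G : SimpleGraph V) (S : Finset V) : Prop :=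
  IsDominating G S ∧ ∀ v ∈ S, ¬ IsDominating G (S.erase v)

/-- One reconfiguration step: there is a vertex `v` such that either `M₂ \ M₁ = {v}` and
`M₁ \ M₂` consists of neighbours of `v`, or the same with the two sets exchanged. -/
def Step (G : SimpleGraph V) (M₁ M₂ : Finset V) : Prop :=
  ∃ v : V, (M₂ \ M₁ = {v} ∧ ∀ u ∈ M₁ \ M₂, G.Adj v u) ∨
    (M₁ \ M₂ = {v} ∧ ∀ u ∈ M₂ \ M₁, G.Adj v u)

theorem Step.symm {G : SimpleGraph V} {M₁ M₂ : Finset V} (h : Step G M₁ M₂) : Step G M₂ M₁ := by
  obtain ⟨v, h | h⟩ := h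
  · exact ⟨v, Or.inr h⟩
  · exact ⟨v, Or.inl h⟩

/-- The reconfiguration graph `R(G)`: its vertices are the minimal dominating sets of `G`, and two
of them are adjacent when they differ by one reconfiguration step. -/
def reconfigurationGraph (G : SimpleGraph V) :
    SimpleGraph {S : Finset V // IsMinimalDominating G S} where
  Adj M₁ M₂ := Step G M₁.1 M₂.1
  symm := ⟨fun _ _ h => Step.symm h⟩
  loopless := ⟨by
    rintro M ⟨v, h | h⟩
    · exact absurd h.1 (by simp)
    · exact absurd h.1 (by simp)⟩

end Pool.Agent.Work.MP_fb0e57_co
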