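import Pool.Agent.Work.MP_fb0e57_co.Defs

set_option autoImplicit false
set_option linter.unusedSimpArgs false
set_option linter.unusedVariables false

/-!
# The girth of the minimal-domination reconfiguration graph is at most five

For a finite simple graph `G` let `R(G)` be the graph on the minimal dominating sets of `G` in
which two sets are joined when one arises from the other by replacing a single vertex by some of
its neighbours.  We prove: if `R(G)` contains a cycle, then it contains a cycle of length at most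
five.

Idea of the proof.  Call a vertex set `W` starlike if all edges inside `W` share a vertex.
If the whole vertex set is starlike, then there are at most two minimal dominating sets.
Otherwise we pass to a subset `W` that is not starlike, but such that deleting the closed
neighbourhood of any vertex of `W` leaves a starlike set; minimal dominating sets of the smaller
graph extend to minimal dominating sets of the bigger one, and adjacency is kept.  For such
critical `W` a short cycle is found by looking at a maximum independent set.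
-/

namespace Pool.Agent.Work.MP_fb0e57_co

open Finset SimpleGraph


section Relative

variable {V : Type*} [DecidableEq V] {G : SimpleGraph V}

/-- `S ⊆ W` dominates `W`. -/
def Dom (G : SimpleGraph V) (W S : Finset V) : Prop :=
  S ⊆ W ∧ ∀ v ∈ W, v ∈ S ∨ ∃ u ∈ S, G.Adj v u

/-- `S` is a minimal dominating set of the subgraph induced on `W`. -/
def MD (G : SimpleGraph V) (W S : Finset V) : Prop :=
  Dom G W S ∧ ∀ v ∈ S, ¬ Dom G W (S.erase v)

/-- independent sets -/
def Indep (G : SimpleGraph V) (S : Finset V) : Prop := ∀ a ∈ S, ∀ b ∈ S, ¬ G.Adj a b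

/-- all edges inside `W` share the vertex `c` -/
def Starlike (G : SimpleGraph V) (W : Finset V) : Prop :=
  ∃ c, ∀ a ∈ W, ∀ b ∈ W, G.Adj a b → a = c ∨ b = c

/-- there is a cycle of length 3, 4 or 5 in the reconfiguration graph of the subgraph induced
on `W` -/
def SC (G : SimpleGraph V) (W : Finset V) : Prop :=
  (∃ a b c, MD G W a ∧ MD G W b ∧ MD G W c ∧ Step G a b ∧ Step G b c ∧ Step G c a) ∨
  (∃ a b c d, MD G W a ∧ MD G W b ∧ MD G W c ∧ MD G W d ∧
    Step G a b ∧ Step G b c ∧ Step G c d ∧ Step G d a ∧ a ≠ c ∧ b ≠ d) ∨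
  (∃ a b c d e, MD G W a ∧ MD G W b ∧ MD G W c ∧ MD G W d ∧ MD G W e ∧
    Step G a b ∧ Step G b c ∧ Step G c d ∧ Step G d e ∧ Step G e a ∧
    a ≠ c ∧ a ≠ d ∧ b ≠ d ∧ b ≠ e ∧ c ≠ e)

theorem md_of_indep {W Y : Finset V} (hi : Indep G Y) (hd : Dom G W Y) : MD G W Y := by
  refine ⟨hd, fun v hv hd' => ?_⟩
  rcases hd'.2 v (hd.1 hv) with h | ⟨u, hu, hvu⟩
  · simp at h
  · exact hi v hv u (mem_of_mem_erase hu) hvu

theorem md_pair {W : Finset V} {x u : V} (hx : x ∈ W) (hu : u ∈ W) (hxu : x ≠ u)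
    (hd : ∀ v ∈ W, v ≠ x → v ≠ u → G.Adj v x ∨ G.Adj v u)
    (hno : ∀ v ∈ W, ∃ z ∈ W, z ≠ v ∧ ¬ G.Adj z v) : MD G W {x, u} := by
  refine ⟨⟨?_, ?_⟩, ?_⟩
  · intro a ha
    simp only [mem_insert, mem_singleton] at ha
    rcases ha with rfl | rfl <;> assumption
  · intro v hv
    by_cases h1 : v = x
    · left; simp [h1]
    by_cases h2 : v = u
    · left; simp [h2]
    rcases hd v hv h1 h2 with h | h
    · exact Or.inr ⟨x, by simp, h⟩
    · exact Or.inr ⟨u, by simp, h⟩
  · intro v hv hd'
    simp only [mem_insert, mem_singleton] at hv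
    rcases hv with rfl | rfl
    · obtain ⟨z, hz, hzu, hzn⟩ := hno u hu
      rcases hd'.2 z hz with h | ⟨w, hw, hzw⟩
      · simp only [mem_erase, mem_insert, mem_singleton] at h
        rcases h.2 with h' | h'
        · exact h.1 h'
        · exact hzu h'
      · simp only [mem_erase, mem_insert, mem_singleton] at hw
        rcases hw.2 with h' | h'
        · exact hw.1 h'
        · exact hzn (h' ▸ hzw)
    · obtain ⟨z, hz, hzu, hzn⟩ := hno x hx
      rcases hd'.2 z hz with h | ⟨w, hw, hzw⟩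
      · simp only [mem_erase, mem_insert, mem_singleton] at h
        rcases h.2 with h' | h'
        · exact hzu h'
        · exact h.1 h'
      · simp only [mem_erase, mem_insert, mem_singleton] at hw
        rcases hw.2 with h' | h'
        · exact hzn (h' ▸ hzw)
        · exact hw.1 h'

theorem step_of {S T : Finset V} (v : V) (hvT : v ∈ T) (hvS : v ∉ S)
    (h1 : ∀ u ∈ T, u ≠ v → u ∈ S) (h2 : ∀ u ∈ S, u ∉ T → G.Adj v u) : Step G S T := by
  refine ⟨v, Or.inl ⟨?_, ?_⟩⟩
  · ext u
    simp only [mem_sdiff, mem_singleton]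
    constructor
    · rintro ⟨hu, hn⟩
      by_contra hne
      exact hn (h1 u hu hne)
    · rintro rfl
      exact ⟨hvT, hvS⟩
  · intro u hu
    rw [mem_sdiff] at hu
    exact h2 u hu.1 hu.2

theorem exists_maxIndep (U Y0 : Finset V) (h0 : Y0 ⊆ U) (hi : Indep G Y0) :
    ∃ Y, Y0 ⊆ Y ∧ Y ⊆ U ∧ Indep G Y ∧ ∀ u ∈ U, u ∈ Y ∨ ∃ y ∈ Y, G.Adj u y := by
  classical
  obtain ⟨Y, hY, hmax⟩ := Finset.exists_max_image
    (U.powerset.filter (fun Y => Y0 ⊆ Y ∧ Indep G Y)) Finset.card
    ⟨Y0, by simp [h0, hi]⟩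
  simp only [mem_filter, mem_powerset] at hY hmax
  refine ⟨Y, hY.2.1, hY.1, hY.2.2, fun u hu => ?_⟩
  by_contra hcon
  push Not at hcon
  obtain ⟨hu1, hu2⟩ := hcon
  have := hmax (insert u Y) ⟨insert_subset hu hY.1, hY.2.1.trans (subset_insert _ _), ?_⟩
  · rw [card_insert_of_notMem hu1] at this
    omega
  · intro a ha b hb hab
    rw [mem_insert] at ha hb
    rcases ha with rfl | ha <;> rcases hb with rfl | hb
    · exact G.irrefl hab
    · exact hu2 b hb hab
    · exact hu2 a ha hab.symm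
    · exact hY.2.2 a ha b hb hab

/-- closed neighbourhood deletion -/
theorem md_insert {W S : Finset V} {v : V} (hv : v ∈ W)
    (W' : Finset V) (hW' : ∀ u, u ∈ W' ↔ (u ∈ W ∧ u ≠ v ∧ ¬ G.Adj v u))
    (h : MD G W' S) : MD G W (insert v S) := by
  obtain ⟨⟨hS, hd⟩, hm⟩ := h
  have hS' : ∀ u ∈ S, u ∈ W ∧ u ≠ v ∧ ¬ G.Adj v u := fun u hu => (hW' u).1 (hS hu)
  refine ⟨⟨?_, ?_⟩, ?_⟩
  · exact insert_subset hv (fun u hu => (hS' u hu).1)
  · intro u hu
    by_cases h1 : u = v
    · left; simp [h1]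
    by_cases h2 : G.Adj v u
    · exact Or.inr ⟨v, by simp, h2.symm⟩
    rcases hd u ((hW' u).2 ⟨hu, h1, h2⟩) with h | ⟨w, hw, huw⟩
    · left; simp [h]
    · exact Or.inr ⟨w, by simp [hw], huw⟩
  · intro u hu hdu
    rw [mem_insert] at hu
    rcases hu with rfl | hu
    · rcases hdu.2 u hv with h | ⟨w, hw, huw⟩
      · simp at h
      · rw [mem_erase, mem_insert] at hw
        rcases hw.2 with h' | h'
        · exact hw.1 h'
        · exact (hS' w h').2.2 huw
    · refine hm u hu ⟨(erase_subset _ _).trans hS, fun z hz => ?_⟩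
      have hz' := (hW' z).1 hz
      rcases hdu.2 z hz'.1 with h | ⟨w, hw, hzw⟩
      · rw [mem_erase, mem_insert] at h
        rcases h.2 with h' | h'
        · exact absurd h' hz'.2.1
        · left; rw [mem_erase]; exact ⟨h.1, h'⟩
      · rw [mem_erase, mem_insert] at hw
        rcases hw.2 with h' | h'
        · exact absurd (h' ▸ hzw).symm hz'.2.2
        · exact Or.inr ⟨w, by rw [mem_erase]; exact ⟨hw.1, h'⟩, hzw⟩

theorem step_insert {S T : Finset V} {v : V} (hS : v ∉ S) (hT : v ∉ T) (h : Step G S T) :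
    Step G (insert v S) (insert v T) := by
  have e1 : ∀ A B : Finset V, v ∉ A → insert v A \ insert v B = A \ B := by
    intro A B hA
    ext u
    simp only [mem_sdiff, mem_insert, not_or]
    constructor
    · rintro ⟨h1 | h1, h2, h3⟩
      · exact absurd h1 h2
      · exact ⟨h1, h3⟩
    · rintro ⟨h1, h2⟩
      exact ⟨Or.inr h1, fun h => hA (h ▸ h1), h2⟩
  obtain ⟨w, h | h⟩ := h
  · exact ⟨w, Or.inl (by rw [e1 _ _ hT, e1 _ _ hS]; exact h)⟩
  · exact ⟨w, Or.inr (by rw [e1 _ _ hT, e1 _ _ hS]; exact h)⟩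

theorem insert_ne {S T : Finset V} {v : V} (hS : v ∉ S) (hT : v ∉ T) (h : S ≠ T) :
    insert v S ≠ insert v T := by
  intro he
  apply h
  rw [← erase_insert hS, ← erase_insert hT, he]

theorem sc_of_sub {W : Finset V} {v : V} (hv : v ∈ W)
    (W' : Finset V) (hW' : ∀ u, u ∈ W' ↔ (u ∈ W ∧ u ≠ v ∧ ¬ G.Adj v u))
    (h : SC G W') : SC G W := by
  have hn : ∀ S, MD G W' S → v ∉ S := fun S hS hvS => ((hW' v).1 (hS.1.1 hvS)).2.1 rfl
  have hm : ∀ S, MD G W' S → MD G W (insert v S) := fun S hS => md_insert hv W' hW' hS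
  rcases h with ⟨a, b, c, ha, hb, hc, h1, h2, h3⟩ |
    ⟨a, b, c, d, ha, hb, hc, hd, h1, h2, h3, h4, n1, n2⟩ |
    ⟨a, b, c, d, e, ha, hb, hc, hd, he, h1, h2, h3, h4, h5, n1, n2, n3, n4, n5⟩
  · exact Or.inl ⟨_, _, _, hm a ha, hm b hb, hm c hc, step_insert (hn a ha) (hn b hb) h1,
      step_insert (hn b hb) (hn c hc) h2, step_insert (hn c hc) (hn a ha) h3⟩
  · exact Or.inr (Or.inl ⟨_, _, _, _, hm a ha, hm b hb, hm c hc, hm d hd,
      step_insert (hn a ha) (hn b hb) h1,
      step_insert (hn b hb) (hn c hc) h2, step_insert (hn c hc) (hn d hd) h3,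
      step_insert (hn d hd) (hn a ha) h4, insert_ne (hn a ha) (hn c hc) n1,
      insert_ne (hn b hb) (hn d hd) n2⟩)
  · exact Or.inr (Or.inr ⟨_, _, _, _, _, hm a ha, hm b hb, hm c hc, hm d hd, hm e he,
      step_insert (hn a ha) (hn b hb) h1,
      step_insert (hn b hb) (hn c hc) h2, step_insert (hn c hc) (hn d hd) h3,
      step_insert (hn d hd) (hn e he) h4, step_insert (hn e he) (hn a ha) h5,
      insert_ne (hn a ha) (hn c hc) n1, insert_ne (hn a ha) (hn d hd) n2,
      insert_ne (hn b hb) (hn d hd) n3, insert_ne (hn b hb) (hn e he) n4,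
      insert_ne (hn c hc) (hn e he) n5⟩)

/-- Any set containing an edge has two adjacent minimal dominating sets (one case). -/
theorem exists_step_aux {W : Finset V} {b c : V} (hb : b ∈ W) (hc : c ∈ W) (hbc : G.Adj b c)
    (X : Finset V) (hXi : Indep G X)
    (hX : ∀ u ∈ X, u ∈ W ∧ u ≠ b ∧ u ≠ c ∧ ¬ G.Adj b u ∧ ¬ G.Adj c u)
    (hXd : ∀ u ∈ W, u ≠ b → u ≠ c → ¬ G.Adj b u → ¬ G.Adj c u → u ∈ X ∨ ∃ y ∈ X, G.Adj u y)
    (hQ : ∀ u ∈ W, u ≠ b → G.Adj c u → ¬ G.Adj b u → ∃ y ∈ X, G.Adj u y) :
    ∃ M M', MD G W M ∧ MD G W M' ∧ Step G M M' := by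
  classical
  obtain ⟨P, -, hPU, hPi, hPd⟩ := exists_maxIndep (G := G)
    (W.filter (fun u => u ≠ c ∧ G.Adj b u ∧ ¬ G.Adj c u ∧ ∀ y ∈ X, ¬ G.Adj u y)) ∅
    (empty_subset _) (by intro a ha; simp at ha)
  have hP : ∀ u ∈ P, u ∈ W ∧ u ≠ c ∧ G.Adj b u ∧ ¬ G.Adj c u ∧ ∀ y ∈ X, ¬ G.Adj u y := by
    intro u hu
    have := hPU hu
    simpa only [mem_filter] using this
  have hbX : b ∉ X := fun h => (hX b h).2.1 rfl
  have hcX : c ∉ X := fun h => (hX c h).2.2.1 rfl
  have hbP : b ∉ P := fun h => G.irrefl (hP b h).2.2.1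
  have hcP : c ∉ P := fun h => (hP c h).2.1 rfl
  -- M = X ∪ {b}, M' = X ∪ {c} ∪ P
  refine ⟨insert b X, insert c (X ∪ P), ?_, ?_, ?_⟩
  · apply md_of_indep
    · intro u hu v hv huv
      rw [mem_insert] at hu hv
      rcases hu with rfl | hu <;> rcases hv with rfl | hv
      · exact G.irrefl huv
      · exact (hX v hv).2.2.2.1 huv
      · exact (hX u hu).2.2.2.1 huv.symm
      · exact hXi u hu v hv huv
    · refine ⟨insert_subset hb (fun u hu => (hX u hu).1), fun u hu => ?_⟩
      by_cases h1 : u = b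
      · left; simp [h1]
      by_cases h2 : G.Adj b u
      · exact Or.inr ⟨b, by simp, h2.symm⟩
      by_cases h3 : G.Adj c u
      · obtain ⟨y, hy, huy⟩ := hQ u hu h1 h3 h2
        exact Or.inr ⟨y, by simp [hy], huy⟩
      have h4 : u ≠ c := by rintro rfl; exact h2 hbc
      rcases hXd u hu h1 h4 h2 h3 with h | ⟨y, hy, huy⟩
      · left; simp [h]
      · exact Or.inr ⟨y, by simp [hy], huy⟩
  · apply md_of_indep
    · intro u hu v hv huv
      rw [mem_insert, mem_union] at hu hv
      rcases hu with rfl | hu | hu <;> rcases hv with rfl | hv | hv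
      · exact G.irrefl huv
      · exact (hX v hv).2.2.2.2 huv
      · exact (hP v hv).2.2.2.1 huv
      · exact (hX u hu).2.2.2.2 huv.symm
      · exact hXi u hu v hv huv
      · exact (hP v hv).2.2.2.2 u hu huv.symm
      · exact (hP u hu).2.2.2.1 huv.symm
      · exact (hP u hu).2.2.2.2 v hv huv
      · exact hPi u hu v hv huv
    · refine ⟨insert_subset hc (union_subset (fun u hu => (hX u hu).1)
        (fun u hu => (hP u hu).1)), fun u hu => ?_⟩
      by_cases h1 : u = c
      · left; simp [h1]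
      by_cases h2 : G.Adj c u
      · exact Or.inr ⟨c, by simp, h2.symm⟩
      by_cases h4 : u = b
      · exact absurd (h4 ▸ hbc.symm) h2
      by_cases h3 : G.Adj b u
      · by_cases h5 : ∃ y ∈ X, G.Adj u y
        · obtain ⟨y, hy, huy⟩ := h5
          exact Or.inr ⟨y, by simp [hy], huy⟩
        · push Not at h5
          rcases hPd u (by simp only [mem_filter]; exact ⟨hu, h1, h3, h2, h5⟩) with h | ⟨y, hy, huy⟩
          · left; simp [h]
          · exact Or.inr ⟨y, by simp [hy], huy⟩
      rcases hXd u hu h4 h1 h3 h2 with h | ⟨y, hy, huy⟩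
      · left; simp [h]
      · exact Or.inr ⟨y, by simp [hy], huy⟩
  · apply Step.symm
    refine step_of b (by simp) ?_ ?_ ?_
    · simp only [mem_insert, mem_union, not_or]
      exact ⟨hbc.ne, hbX, hbP⟩
    · intro u hu hub
      rw [mem_insert] at hu
      rcases hu with h | h
      · exact absurd h hub
      · simp [h]
    · intro u hu hun
      rw [mem_insert, mem_union] at hu
      rcases hu with rfl | hu | hu
      · exact hbc
      · exact absurd (mem_insert_of_mem hu) hun
      · exact (hP u hu).2.2.1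

/-- Any set containing an edge has two adjacent minimal dominating sets. -/
theorem exists_step {W : Finset V} {b c : V} (hb : b ∈ W) (hc : c ∈ W) (hbc : G.Adj b c) :
    ∃ M M', MD G W M ∧ MD G W M' ∧ Step G M M' := by
  classical
  obtain ⟨X, -, hXU, hXi, hXd'⟩ := exists_maxIndep (G := G)
    (W.filter (fun u => u ≠ b ∧ u ≠ c ∧ ¬ G.Adj b u ∧ ¬ G.Adj c u)) ∅
    (empty_subset _) (by intro a ha; simp at ha)
  have hX : ∀ u ∈ X, u ∈ W ∧ u ≠ b ∧ u ≠ c ∧ ¬ G.Adj b u ∧ ¬ G.Adj c u := by
    intro u hu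
    have := hXU hu
    simpa only [mem_filter] using this
  have hXd : ∀ u ∈ W, u ≠ b → u ≠ c → ¬ G.Adj b u → ¬ G.Adj c u →
      u ∈ X ∨ ∃ y ∈ X, G.Adj u y := by
    intro u hu h1 h2 h3 h4
    exact hXd' u (by simp only [mem_filter]; exact ⟨hu, h1, h2, h3, h4⟩)
  by_cases hQ : ∀ u ∈ W, u ≠ b → G.Adj c u → ¬ G.Adj b u → ∃ y ∈ X, G.Adj u y
  · exact exists_step_aux hb hc hbc X hXi hX hXd hQ
  by_cases hP : ∀ u ∈ W, u ≠ c → G.Adj b u → ¬ G.Adj c u → ∃ y ∈ X, G.Adj u y
  · refine exists_step_aux hc hb hbc.symm X hXi ?_ ?_ hP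
    · intro u hu
      obtain ⟨h1, h2, h3, h4, h5⟩ := hX u hu
      exact ⟨h1, h3, h2, h5, h4⟩
    · intro u hu h1 h2 h3 h4
      exact hXd u hu h2 h1 h4 h3
  push Not at hQ hP
  obtain ⟨q, hqW, hqb, hcq, hbq, hqX⟩ := hQ
  obtain ⟨p, hpW, hpc, hbp, hcp, hpX⟩ := hP
  have hbX : b ∉ X := fun h => (hX b h).2.1 rfl
  have hcX : c ∉ X := fun h => (hX c h).2.2.1 rfl
  obtain ⟨Q, -, hQU, hQi, hQd⟩ := exists_maxIndep (G := G)
    (W.filter (fun u => u ≠ b ∧ G.Adj c u ∧ ¬ G.Adj b u ∧ ∀ y ∈ X, ¬ G.Adj u y)) ∅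
    (empty_subset _) (by intro a ha; simp at ha)
  have hQ : ∀ u ∈ Q, u ∈ W ∧ u ≠ b ∧ G.Adj c u ∧ ¬ G.Adj b u ∧ ∀ y ∈ X, ¬ G.Adj u y := by
    intro u hu
    have := hQU hu
    simpa only [mem_filter] using this
  refine ⟨insert b (insert c X), insert b (X ∪ Q), ?_, ?_, ?_⟩
  · refine ⟨⟨?_, ?_⟩, ?_⟩
    · exact insert_subset hb (insert_subset hc (fun u hu => (hX u hu).1))
    · intro u hu
      by_cases h1 : u = b
      · left; simp [h1]
      by_cases h2 : u = c
      · left; simp [h2]
      by_cases h3 : G.Adj b u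
      · exact Or.inr ⟨b, by simp, h3.symm⟩
      by_cases h4 : G.Adj c u
      · exact Or.inr ⟨c, by simp, h4.symm⟩
      rcases hXd u hu h1 h2 h3 h4 with h | ⟨y, hy, huy⟩
      · left; simp [h]
      · exact Or.inr ⟨y, by simp [hy], huy⟩
    · intro u hu hd
      simp only [mem_insert] at hu
      rcases hu with rfl | rfl | hu
      · rcases hd.2 p hpW with h | ⟨w, hw, hpw⟩
        · simp only [mem_erase, mem_insert] at h
          rcases h.2 with h' | h' | h'
          · exact h.1 h'
          · exact hpc h'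
          · exact (hX p h').2.2.2.1 hbp
        · simp only [mem_erase, mem_insert] at hw
          rcases hw.2 with h' | h' | h'
          · exact hw.1 h'
          · exact hcp (h' ▸ hpw).symm
          · exact hpX w h' hpw
      · rcases hd.2 q hqW with h | ⟨w, hw, hqw⟩
        · simp only [mem_erase, mem_insert] at h
          rcases h.2 with h' | h' | h'
          · exact hqb h'
          · exact h.1 h'
          · exact (hX q h').2.2.2.2 hcq
        · simp only [mem_erase, mem_insert] at hw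
          rcases hw.2 with h' | h' | h'
          · exact hbq (h' ▸ hqw).symm
          · exact hw.1 h'
          · exact hqX w h' hqw
      · rcases hd.2 u (hX u hu).1 with h | ⟨w, hw, huw⟩
        · simp at h
        · simp only [mem_erase, mem_insert] at hw
          rcases hw.2 with h' | h' | h'
          · exact (hX u hu).2.2.2.1 (h' ▸ huw).symm
          · exact (hX u hu).2.2.2.2 (h' ▸ huw).symm
          · exact hXi u hu w h' huw
  · apply md_of_indep
    · intro u hu v hv huv
      rw [mem_insert, mem_union] at hu hv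
      rcases hu with rfl | hu | hu <;> rcases hv with rfl | hv | hv
      · exact G.irrefl huv
      · exact (hX v hv).2.2.2.1 huv
      · exact (hQ v hv).2.2.2.1 huv
      · exact (hX u hu).2.2.2.1 huv.symm
      · exact hXi u hu v hv huv
      · exact (hQ v hv).2.2.2.2 u hu huv.symm
      · exact (hQ u hu).2.2.2.1 huv.symm
      · exact (hQ u hu).2.2.2.2 v hv huv
      · exact hQi u hu v hv huv
    · refine ⟨insert_subset hb (union_subset (fun u hu => (hX u hu).1)
        (fun u hu => (hQ u hu).1)), fun u hu => ?_⟩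
      by_cases h1 : u = b
      · left; simp [h1]
      by_cases h2 : G.Adj b u
      · exact Or.inr ⟨b, by simp, h2.symm⟩
      by_cases h4 : u = c
      · exact absurd (h4 ▸ hbc) h2
      by_cases h3 : G.Adj c u
      · by_cases h5 : ∃ y ∈ X, G.Adj u y
        · obtain ⟨y, hy, huy⟩ := h5
          exact Or.inr ⟨y, by simp [hy], huy⟩
        · push Not at h5
          rcases hQd u (by simp only [mem_filter]; exact ⟨hu, h1, h3, h2, h5⟩) with h | ⟨y, hy, huy⟩
          · left; simp [h]
          · exact Or.inr ⟨y, by simp [hy], huy⟩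
      rcases hXd u hu h1 h4 h2 h3 with h | ⟨y, hy, huy⟩
      · left; simp [h]
      · exact Or.inr ⟨y, by simp [hy], huy⟩
  · apply Step.symm
    refine step_of c (by simp) ?_ ?_ ?_
    · simp only [mem_insert, mem_union, not_or]
      exact ⟨hbc.ne.symm, hcX, fun h => G.irrefl (hQ c h).2.2.1⟩
    · intro u hu huc
      simp only [mem_insert] at hu
      rcases hu with h | h | h
      · simp [h]
      · exact absurd h huc
      · simp [h]
    · intro u hu hun
      rw [mem_insert, mem_union] at hu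
      rcases hu with rfl | hu | hu
      · exact absurd (mem_insert_self _ _) hun
      · exact absurd (mem_insert_of_mem (mem_insert_of_mem hu)) hun
      · exact (hQ u hu).2.2.1

/-- A universal vertex and a further edge give a triangle. -/
theorem sc_of_universal {W : Finset V} {v b c : V} (hv : v ∈ W)
    (huniv : ∀ z ∈ W, z ≠ v → G.Adj z v) (hb : b ∈ W) (hc : c ∈ W) (hbv : b ≠ v) (hcv : c ≠ v)
    (hbc : G.Adj b c) : SC G W := by
  obtain ⟨M, M', hM, hM', hs⟩ := exists_step (W := W.erase v) (mem_erase.2 ⟨hbv, hb⟩)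
    (mem_erase.2 ⟨hcv, hc⟩) hbc
  have key : ∀ M, MD G (W.erase v) M → MD G W M ∧ v ∉ M ∧ Step G M {v} := by
    intro M hM
    have hvM : v ∉ M := fun h => by simpa using hM.1.1 h
    have hsub : ∀ u ∈ M, u ≠ v ∧ u ∈ W := fun u hu => mem_erase.1 (hM.1.1 hu)
    refine ⟨⟨⟨fun u hu => (hsub u hu).2, fun u hu => ?_⟩, fun u hu hd => ?_⟩, hvM, ?_⟩
    · by_cases h1 : u = v
      · subst h1
        -- M is nonempty
        have : M.Nonempty := by
          rcases hM.1.2 b (mem_erase.2 ⟨hbv, hb⟩) with h | ⟨w, hw, -⟩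
          · exact ⟨b, h⟩
          · exact ⟨w, hw⟩
        obtain ⟨w, hw⟩ := this
        exact Or.inr ⟨w, hw, (huniv w (hsub w hw).2 (hsub w hw).1).symm⟩
      · exact hM.1.2 u (mem_erase.2 ⟨h1, hu⟩)
    · exact hM.2 u hu ⟨(erase_subset _ _).trans hM.1.1,
        fun z hz => hd.2 z (mem_of_mem_erase hz)⟩
    · refine step_of v (by simp) hvM ?_ ?_
      · intro u hu huv
        exact absurd (mem_singleton.1 hu) huv
      · intro u hu hun
        exact (huniv u (hsub u hu).2 (hsub u hu).1).symm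
  have hV : MD G W {v} := by
    refine ⟨⟨by simpa using hv, fun u hu => ?_⟩, fun u hu hd => ?_⟩
    · by_cases h1 : u = v
      · left; simp [h1]
      · exact Or.inr ⟨v, by simp, huniv u hu h1⟩
    · rw [mem_singleton] at hu
      subst hu
      rcases hd.2 u hv with h | ⟨w, hw, -⟩
      · simp at h
      · simp at hw
  obtain ⟨k1, k2, k3⟩ := key M hM
  obtain ⟨k1', k2', k3'⟩ := key M' hM'
  exact Or.inl ⟨{v}, M, M', hV, k1, k1', k3.symm, hs, k3'⟩

/-- Critical sets with a private neighbour. -/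
theorem sc_private {W J : Finset V} {x p : V}
    (hno : ∀ v ∈ W, ∃ z ∈ W, z ≠ v ∧ ¬ G.Adj z v)
    (hx : x ∈ W) (hp : p ∈ W) (hxp : G.Adj x p) (hJ : J ⊆ W)
    (hxJ : x ∉ J) (hpJ : p ∉ J) (hJne : J.Nonempty)
    (hJi : Indep G J) (hxa : ∀ y ∈ J, ¬ G.Adj x y) (hpa : ∀ y ∈ J, ¬ G.Adj p y)
    (hR : ∀ u ∈ W, u ∉ J → u ≠ x → u ≠ p → ∀ y ∈ J, G.Adj u y)
    (hux : ∀ u ∈ W, ∀ u' ∈ W, u ∉ J → u ≠ x → u ≠ p → u' ∉ J → u' ≠ x → u' ≠ p →
      ¬ G.Adj u x → ¬ G.Adj u' x → u = u')
    (hup : ∀ u ∈ W, ∀ u' ∈ W, u ∉ J → u ≠ x → u ≠ p → u' ∉ J → u' ≠ x → u' ≠ p →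
      ¬ G.Adj u p → ¬ G.Adj u' p → u = u')
    (hex : ∃ u ∈ W, u ∉ J ∧ u ≠ x ∧ u ≠ p) : SC G W := by
  classical
  have hne : x ≠ p := hxp.ne
  -- the two big independent sets
  have big : ∀ a b : V, a ∈ W → a ∉ J → (∀ y ∈ J, ¬ G.Adj a y) → G.Adj b a →
      (∀ u ∈ W, u ∉ J → u ≠ a → u ≠ b → ∀ y ∈ J, G.Adj u y) → MD G W (insert a J) := by
    intro a b ha haJ haa hba hR'
    apply md_of_indep
    · intro u hu v hv huv
      rw [mem_insert] at hu hv
      rcases hu with rfl | hu <;> rcases hv with rfl | hv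
      · exact G.irrefl huv
      · exact haa v hv huv
      · exact haa u hu huv.symm
      · exact hJi u hu v hv huv
    · refine ⟨insert_subset ha hJ, fun u hu => ?_⟩
      by_cases h1 : u ∈ J
      · left; simp [h1]
      by_cases h2 : u = a
      · left; simp [h2]
      by_cases h3 : u = b
      · exact Or.inr ⟨a, by simp, h3 ▸ hba⟩
      obtain ⟨y, hy⟩ := hJne
      exact Or.inr ⟨y, by simp [hy], hR' u hu h1 h2 h3 y hy⟩
  have hbx : MD G W (insert x J) := big x p hx hxJ hxa hxp.symm hR
  have hbp : MD G W (insert p J) := big p x hp hpJ hpa hxp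
    (fun u hu h1 h2 h3 => hR u hu h1 h3 h2)
  have domx : ∀ u ∈ W, u ∉ J → u ≠ x → u ≠ p →
      (∀ v ∈ W, v ∉ J → v ≠ x → v ≠ p → v ≠ u → G.Adj v x ∨ G.Adj v u) → MD G W {x, u} := by
    intro u hu huJ hux' hup' h
    refine md_pair hx hu hux'.symm (fun v hv h1 h2 => ?_) hno
    by_cases h3 : v ∈ J
    · exact Or.inr (hR u hu huJ hux' hup' v h3).symm
    by_cases h4 : v = p
    · exact Or.inl (h4 ▸ hxp.symm)
    exact h v hv h3 h1 h4 h2
  have domp : ∀ u ∈ W, u ∉ J → u ≠ x → u ≠ p →
      (∀ v ∈ W, v ∉ J → v ≠ x → v ≠ p → v ≠ u → G.Adj v p ∨ G.Adj v u) → MD G W {p, u} := by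
    intro u hu huJ hux' hup' h
    refine md_pair hp hu hup'.symm (fun v hv h1 h2 => ?_) hno
    by_cases h3 : v ∈ J
    · exact Or.inr (hR u hu huJ hux' hup' v h3).symm
    by_cases h4 : v = x
    · exact Or.inl (h4 ▸ hxp)
    exact h v hv h3 h4 h1 h2
  have hbb : Step G (insert p J) (insert x J) := by
    refine step_of x (by simp) ?_ ?_ ?_
    · simp only [mem_insert, not_or]; exact ⟨hne, hxJ⟩
    · intro z hz hzx
      rw [mem_insert] at hz
      rcases hz with h | h
      · exact absurd h hzx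
      · simp [h]
    · intro z hz hzn
      rw [mem_insert] at hz
      rcases hz with h | h
      · exact h ▸ hxp
      · exact absurd (mem_insert_of_mem h) hzn
  have stx : ∀ a u : V, u ∈ W → u ∉ J → u ≠ x → u ≠ p → u ≠ a →
      Step G (insert a J) {a, u} := by
    intro a u hu huJ h1 h2 hua
    refine step_of u (by simp) ?_ ?_ ?_
    · simp only [mem_insert, not_or]; exact ⟨hua, huJ⟩
    · intro z hz hzu
      simp only [mem_insert, mem_singleton] at hz
      rcases hz with h | h
      · simp [h]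
      · exact absurd h hzu
    · intro z hz hzn
      rw [mem_insert] at hz
      rcases hz with h | h
      · exact absurd (by simp [h]) hzn
      · exact hR u hu huJ h1 h2 z h
  have four : ∀ u ∈ W, u ∉ J → u ≠ x → u ≠ p → MD G W {x, u} → MD G W {p, u} → SC G W := by
    intro u hu huJ h1 h2 m1 m2
    refine Or.inr (Or.inl ⟨insert x J, {x, u}, {p, u}, insert p J, hbx, m1, m2, hbp,
      stx x u hu huJ h1 h2 h1, ?_, (stx p u hu huJ h1 h2 h2).symm, hbb, ?_, ?_⟩)
    · refine step_of p (by simp) ?_ ?_ ?_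
      · simp only [mem_insert, mem_singleton, not_or]; exact ⟨hne.symm, h2.symm⟩
      · intro z hz hzp
        simp only [mem_insert, mem_singleton] at hz ⊢
        rcases hz with h | h
        · exact absurd h hzp
        · exact Or.inr h
      · intro z hz hzn
        simp only [mem_insert, mem_singleton, not_or] at hz hzn
        rcases hz with h | h
        · exact h ▸ hxp.symm
        · exact absurd h hzn.2
    · intro he
      have : x ∈ ({p, u} : Finset V) := he ▸ mem_insert_self x J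
      simp only [mem_insert, mem_singleton] at this
      rcases this with h | h
      · exact hne h
      · exact h1 h.symm
    · intro he
      have : x ∈ insert p J := he ▸ (by simp)
      rw [mem_insert] at this
      rcases this with h | h
      · exact hne h
      · exact hxJ h
  by_cases hw : ∃ w ∈ W, w ∉ J ∧ w ≠ x ∧ w ≠ p ∧ ¬ G.Adj w x
  · obtain ⟨w, hwW, hwJ, hwx, hwp, hwn⟩ := hw
    have m1 : MD G W {x, w} := domx w hwW hwJ hwx hwp (fun v hv h1 h2 h3 h4 => by
      left
      by_contra hcon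
      exact h4 (hux v hv w hwW h1 h2 h3 hwJ hwx hwp hcon hwn))
    by_cases hw' : ∃ w' ∈ W, w' ∉ J ∧ w' ≠ x ∧ w' ≠ p ∧ w' ≠ w ∧ ¬ G.Adj w' p ∧ ¬ G.Adj w' w
    · obtain ⟨w', hw'W, hw'J, hw'x, hw'p, hww, hw'n, hw'w⟩ := hw'
      have m2 : MD G W {p, w'} := domp w' hw'W hw'J hw'x hw'p (fun v hv h1 h2 h3 h4 => by
        left
        by_contra hcon
        exact h4 (hup v hv w' hw'W h1 h2 h3 hw'J hw'x hw'p hcon hw'n))
      have hw'x' : G.Adj w' x := by
        by_contra hcon
        exact hww (hux w' hw'W w hwW hw'J hw'x hw'p hwJ hwx hwp hcon hwn)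
      have hwp' : G.Adj w p := by
        by_contra hcon
        exact hww (hup w' hw'W w hwW hw'J hw'x hw'p hwJ hwx hwp hw'n hcon)
      obtain ⟨Y, hY0, hYW, hYi, hYd⟩ := exists_maxIndep (G := G) W {w, w'} (by
        intro z hz
        simp only [mem_insert, mem_singleton] at hz
        rcases hz with rfl | rfl <;> assumption) (by
        intro a ha b hb hab
        simp only [mem_insert, mem_singleton] at ha hb
        rcases ha with rfl | rfl <;> rcases hb with rfl | rfl
        · exact G.irrefl hab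
        · exact hw'w hab.symm
        · exact hw'w hab
        · exact G.irrefl hab)
      have hwY : w ∈ Y := hY0 (by simp)
      have hw'Y : w' ∈ Y := hY0 (by simp)
      have mY : MD G W Y := md_of_indep hYi ⟨hYW, hYd⟩
      have hxY : x ∉ Y := fun h => hYi w' hw'Y x h hw'x'
      have hpY : p ∉ Y := fun h => hYi w hwY p h hwp'
      have hYJ : ∀ y ∈ Y, y ∉ J := fun y hy hyJ => hYi w hwY y hy (hR w hwW hwJ hwx hwp y hyJ)
      have hYx : ∀ y ∈ Y, y ≠ w → G.Adj x y := by
        intro y hy hyw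
        by_contra hcon
        exact hyw (hux y (hYW hy) w hwW (hYJ y hy) (fun h => hxY (h ▸ hy))
          (fun h => hpY (h ▸ hy)) hwJ hwx hwp (fun h => hcon h.symm) hwn)
      have hYp : ∀ y ∈ Y, y ≠ w' → G.Adj p y := by
        intro y hy hyw
        by_contra hcon
        exact hyw (hup y (hYW hy) w' hw'W (hYJ y hy) (fun h => hxY (h ▸ hy))
          (fun h => hpY (h ▸ hy)) hw'J hw'x hw'p (fun h => hcon h.symm) hw'n)
      have sY : ∀ a u : V, a ∉ Y → u ∈ Y → (∀ y ∈ Y, y ≠ u → G.Adj a y) → Step G Y {a, u} := by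
        intro a u ha hu h
        refine step_of a (by simp) ha ?_ ?_
        · intro z hz hza
          simp only [mem_insert, mem_singleton] at hz
          rcases hz with h' | h'
          · exact absurd h' hza
          · exact h' ▸ hu
        · intro z hz hzn
          simp only [mem_insert, mem_singleton, not_or] at hzn
          exact h z hz hzn.2
      refine Or.inr (Or.inr ⟨insert x J, {x, w}, Y, {p, w'}, insert p J, hbx, m1, mY, m2, hbp,
        stx x w hwW hwJ hwx hwp hwx, (sY x w hxY hwY hYx).symm, sY p w' hpY hw'Y hYp,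
        (stx p w' hw'W hw'J hw'x hw'p hw'p).symm, hbb, ?_, ?_, ?_, ?_, ?_⟩)
      · intro he
        have : w ∈ insert x J := he ▸ hwY
        rw [mem_insert] at this
        rcases this with h | h
        · exact hwx h
        · exact hwJ h
      · intro he
        have : x ∈ ({p, w'} : Finset V) := he ▸ mem_insert_self x J
        simp only [mem_insert, mem_singleton] at this
        rcases this with h | h
        · exact hne h
        · exact hw'x h.symm
      · intro he
        have : x ∈ ({p, w'} : Finset V) := he ▸ (by simp)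
        simp only [mem_insert, mem_singleton] at this
        rcases this with h | h
        · exact hne h
        · exact hw'x h.symm
      · intro he
        have : x ∈ insert p J := he ▸ (by simp)
        rw [mem_insert] at this
        rcases this with h | h
        · exact hne h
        · exact hxJ h
      · intro he
        have : w ∈ insert p J := he ▸ hwY
        rw [mem_insert] at this
        rcases this with h | h
        · exact hwp h
        · exact hwJ h
    · push Not at hw'
      refine four w hwW hwJ hwx hwp m1 (domp w hwW hwJ hwx hwp ?_)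
      intro v hv h1 h2 h3 h4
      by_cases h5 : G.Adj v p
      · exact Or.inl h5
      · exact Or.inr (hw' v hv h1 h2 h3 h4 h5)
  · push Not at hw
    by_cases hw' : ∃ w' ∈ W, w' ∉ J ∧ w' ≠ x ∧ w' ≠ p ∧ ¬ G.Adj w' p
    · obtain ⟨w', hw'W, hw'J, hw'x, hw'p, hw'n⟩ := hw'
      refine four w' hw'W hw'J hw'x hw'p (domx w' hw'W hw'J hw'x hw'p ?_)
        (domp w' hw'W hw'J hw'x hw'p ?_)
      · intro v hv h1 h2 h3 h4
        exact Or.inl (hw v hv h1 h2 h3)
      · intro v hv h1 h2 h3 h4
        left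
        by_contra hcon
        exact h4 (hup v hv w' hw'W h1 h2 h3 hw'J hw'x hw'p hcon hw'n)
    · push Not at hw'
      obtain ⟨u, hu, huJ, hux', hup'⟩ := hex
      refine four u hu huJ hux' hup' (domx u hu huJ hux' hup' ?_) (domp u hu huJ hux' hup' ?_)
      · intro v hv h1 h2 h3 h4
        exact Or.inl (hw v hv h1 h2 h3)
      · intro v hv h1 h2 h3 h4
        exact Or.inl (hw' v hv h1 h2 h3)

/-- Critical sets in which every vertex outside the independent set `I` has two neighbours in
`I`. -/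
theorem sc_no_private {W I : Finset V}
    (hno : ∀ v ∈ W, ∃ z ∈ W, z ≠ v ∧ ¬ G.Adj z v)
    (hcrit : ∀ v ∈ W, ∃ c, ∀ a ∈ W, ∀ b ∈ W, a ≠ v → b ≠ v → ¬ G.Adj v a → ¬ G.Adj v b →
      G.Adj a b → a = c ∨ b = c)
    (hnoniso : ∀ z ∈ W, ∃ u ∈ W, G.Adj z u)
    (hIW : I ⊆ W) (hIi : Indep G I) (hId : ∀ u ∈ W, u ∈ I ∨ ∃ y ∈ I, G.Adj u y)
    (hI2 : ∃ x ∈ I, ∃ x' ∈ I, x ≠ x')
    (htwo : ∀ u ∈ W, u ∉ I → ∃ s ∈ I, ∃ s' ∈ I, s ≠ s' ∧ G.Adj u s ∧ G.Adj u s') :
    SC G W := by
  classical
  have mI : MD G W I := md_of_indep hIi ⟨hIW, hId⟩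
  -- D1
  have D1 : ∀ u ∈ W, u ∉ I → ∀ u' ∈ W, u' ∉ I → u ≠ u' → ∀ y ∈ I, ¬ G.Adj u y → G.Adj u' y := by
    intro u hu huI u' hu' hu'I hne y hy hn
    by_contra hn'
    obtain ⟨c, hc⟩ := hcrit y (hIW hy)
    have key : ∀ v ∈ W, v ∉ I → ¬ G.Adj v y → v = c := by
      intro v hv hvI hvn
      obtain ⟨s, hs, s', hs', hss, h1, h2⟩ := htwo v hv hvI
      have a1 : s ≠ y := by rintro rfl; exact hvn h1
      have a2 : s' ≠ y := by rintro rfl; exact hvn h2
      have a3 : v ≠ y := by rintro rfl; exact hvI hy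
      have b1 := hc v hv s (hIW hs) a3 a1 (fun h => hvn h.symm) (fun h => hIi y hy s hs h) h1
      have b2 := hc v hv s' (hIW hs') a3 a2 (fun h => hvn h.symm) (fun h => hIi y hy s' hs' h) h2
      rcases b1 with b1 | b1
      · exact b1
      · rcases b2 with b2 | b2
        · exact b2
        · exact absurd (b1.trans b2.symm) hss
    exact hne ((key u hu huI hn).trans (key u' hu' hu'I hn').symm)
  -- basic steps
  have stI : ∀ x ∈ I, ∀ u ∈ W, u ∉ I → (∀ y ∈ I, G.Adj u y) → Step G I {x, u} := by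
    intro x hx u hu huI huc
    refine step_of u (by simp) huI ?_ ?_
    · intro z hz hzu
      simp only [mem_insert, mem_singleton] at hz
      rcases hz with h | h
      · exact h ▸ hx
      · exact absurd h hzu
    · intro z hz _
      exact huc z hz
  by_cases ht : ∀ u ∈ W, u ∉ I → ∀ y ∈ I, G.Adj u y
  · -- everything outside I is complete to I
    obtain ⟨x, hx, x', hx', hxx⟩ := hI2
    have mp : ∀ x ∈ I, ∀ u ∈ W, u ∉ I → MD G W {x, u} := by
      intro x hx u hu huI
      refine md_pair (hIW hx) hu (fun h => huI (h ▸ hx)) (fun v hv h1 h2 => ?_) hno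
      by_cases hvI : v ∈ I
      · exact Or.inr (ht u hu huI v hvI).symm
      · exact Or.inl (ht v hv hvI x hx)
    by_cases hT : ∃ u ∈ W, ∃ u' ∈ W, u ∉ I ∧ u' ∉ I ∧ G.Adj u u'
    · obtain ⟨u, hu, u', hu', huI, hu'I, huu⟩ := hT
      refine Or.inl ⟨I, {x, u}, {x, u'}, mI, mp x hx u hu huI, mp x hx u' hu' hu'I,
        stI x hx u hu huI (ht u hu huI), ?_, (stI x hx u' hu' hu'I (ht u' hu' hu'I)).symm⟩
      refine step_of u' (by simp) ?_ ?_ ?_
      · simp only [mem_insert, mem_singleton, not_or]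
        exact ⟨fun h => hu'I (h ▸ hx), huu.ne.symm⟩
      · intro z hz hzu
        simp only [mem_insert, mem_singleton] at hz ⊢
        rcases hz with h | h
        · exact Or.inl h
        · exact absurd h hzu
      · intro z hz hzn
        simp only [mem_insert, mem_singleton, not_or] at hz hzn
        rcases hz with h | h
        · exact absurd h hzn.1
        · exact h ▸ huu.symm
    · push Not at hT
      obtain ⟨u, hu, hxu⟩ := hnoniso x (hIW hx)
      have huI : u ∉ I := fun h => hIi x hx u h hxu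
      have mT : MD G W (W \ I) := by
        apply md_of_indep
        · intro a ha b hb
          rw [mem_sdiff] at ha hb
          exact hT a ha.1 b hb.1 ha.2 hb.2
        · refine ⟨sdiff_subset, fun v hv => ?_⟩
          by_cases hvI : v ∈ I
          · exact Or.inr ⟨u, mem_sdiff.2 ⟨hu, huI⟩, (ht u hu huI v hvI).symm⟩
          · exact Or.inl (mem_sdiff.2 ⟨hv, hvI⟩)
      have stT : ∀ x ∈ I, Step G (W \ I) {x, u} := by
        intro x hx
        refine step_of x (by simp) (fun h => (mem_sdiff.1 h).2 hx) ?_ ?_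
        · intro z hz hzx
          simp only [mem_insert, mem_singleton] at hz
          rcases hz with h | h
          · exact absurd h hzx
          · exact mem_sdiff.2 ⟨h ▸ hu, h ▸ huI⟩
        · intro z hz _
          rw [mem_sdiff] at hz
          exact (ht z hz.1 hz.2 x hx).symm
      refine Or.inr (Or.inl ⟨I, {x, u}, W \ I, {x', u}, mI, mp x hx u hu huI, mT,
        mp x' hx' u hu huI, stI x hx u hu huI (ht u hu huI), (stT x hx).symm, stT x' hx',
        (stI x' hx' u hu huI (ht u hu huI)).symm, ?_, ?_⟩)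
      · intro he
        exact (mem_sdiff.1 (he ▸ hx)).2 hx
      · intro he
        have : x ∈ ({x', u} : Finset V) := he ▸ (by simp)
        simp only [mem_insert, mem_singleton] at this
        rcases this with h | h
        · exact hxx h
        · exact huI (h ▸ hx)
  -- now some vertex outside I has a non-neighbour in I
  push Not at ht
  -- sets A, Y, M, N
  obtain ⟨A, hA⟩ : ∃ A : V → Finset V, ∀ w y, y ∈ A w ↔ (y ∈ I ∧ ¬ G.Adj w y) :=
    ⟨fun w => I.filter (fun y => ¬ G.Adj w y), fun w y => by simp⟩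
  obtain ⟨Y, hY⟩ : ∃ Y : V → Finset V, ∀ w u, u ∈ Y w ↔ (u ∈ W ∧ u ∉ I ∧ u ≠ w ∧ ¬ G.Adj w u) :=
    ⟨fun w => W.filter (fun u => u ∉ I ∧ u ≠ w ∧ ¬ G.Adj w u), fun w y => by simp⟩
  have hwA : ∀ w, w ∉ I → w ∉ A w := fun w hw h => hw ((hA w w).1 h).1
  have hwY : ∀ w, w ∉ Y w := fun w h => ((hY w w).1 h).2.2.1 rfl
  -- bad vertices: outside I with nonempty A
  have E1 : ∀ w ∈ W, w ∉ I → (∃ y ∈ I, ¬ G.Adj w y) → MD G W (insert w (A w)) := by
    intro w hw hwI ⟨y, hy, hwy⟩
    apply md_of_indep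
    · intro u hu v hv huv
      rw [mem_insert] at hu hv
      rcases hu with rfl | hu <;> rcases hv with rfl | hv
      · exact G.irrefl huv
      · exact ((hA _ v).1 hv).2 huv
      · exact ((hA _ u).1 hu).2 huv.symm
      · exact hIi u ((hA _ u).1 hu).1 v ((hA _ v).1 hv).1 huv
    · refine ⟨insert_subset hw (fun u hu => hIW ((hA w u).1 hu).1), fun u hu => ?_⟩
      by_cases huI : u ∈ I
      · by_cases h1 : G.Adj w u
        · exact Or.inr ⟨w, by simp, h1.symm⟩
        · exact Or.inl (mem_insert_of_mem ((hA w u).2 ⟨huI, h1⟩))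
      · by_cases h1 : u = w
        · left; simp [h1]
        · exact Or.inr ⟨y, mem_insert_of_mem ((hA w y).2 ⟨hy, hwy⟩),
            D1 w hw hwI u hu huI (fun h => h1 h.symm) y hy hwy⟩
  have E2 : ∀ w ∈ W, w ∉ I → Step G I (insert w (A w)) := by
    intro w hw hwI
    refine step_of w (by simp) hwI ?_ ?_
    · intro u hu huw
      rw [mem_insert] at hu
      rcases hu with h | h
      · exact absurd h huw
      · exact ((hA w u).1 h).1
    · intro u hu hun
      rw [mem_insert, not_or] at hun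
      by_contra hcon
      exact hun.2 ((hA w u).2 ⟨hu, hcon⟩)
  have E3 : ∀ w ∈ W, w ∉ I → (∃ y ∈ I, ¬ G.Adj w y) → Indep G (insert w (Y w)) := by
    intro w hw hwI ⟨a, ha, hwa⟩ u hu v hv huv
    rw [mem_insert] at hu hv
    rcases hu with rfl | hu <;> rcases hv with rfl | hv
    · exact G.irrefl huv
    · exact ((hY _ v).1 hv).2.2.2 huv
    · exact ((hY _ u).1 hu).2.2.2 huv.symm
    · obtain ⟨huW, huI, huw, hun⟩ := (hY _ u).1 hu
      obtain ⟨hvW, hvI, hvw, hvn⟩ := (hY _ v).1 hv
      have h1 : G.Adj u a := D1 w hw hwI u huW huI (fun h => huw h.symm) a ha hwa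
      have h2 : G.Adj v a := D1 w hw hwI v hvW hvI (fun h => hvw h.symm) a ha hwa
      have haw : a ≠ w := fun h => hwI (h ▸ ha)
      obtain ⟨c, hc⟩ := hcrit w hw
      have c1 := hc u huW a (hIW ha) huw haw hun hwa h1
      have c2 := hc v hvW a (hIW ha) hvw haw hvn hwa h2
      have c3 := hc u huW v hvW huw hvw hun hvn huv
      have hua : u ≠ a := fun h => huI (h ▸ ha)
      have hva : v ≠ a := fun h => hvI (h ▸ ha)
      have huv' : u ≠ v := huv.ne
      rcases c1 with c1 | c1 <;> rcases c2 with c2 | c2 <;> rcases c3 with c3 | c3 <;>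
        simp_all
  have E4 : ∀ w ∈ W, w ∉ I → (∃ y ∈ I, ¬ G.Adj w y) → (Y w).Nonempty →
      MD G W (insert w (Y w)) := by
    intro w hw hwI hwA' ⟨y, hy⟩
    refine md_of_indep (E3 w hw hwI hwA') ⟨insert_subset hw (fun u hu => ((hY w u).1 hu).1),
      fun u hu => ?_⟩
    by_cases h1 : u = w
    · left; simp [h1]
    by_cases h2 : G.Adj w u
    · exact Or.inr ⟨w, by simp, h2.symm⟩
    by_cases huI : u ∈ I
    · obtain ⟨hyW, hyI, hyw, hyn⟩ := (hY _ y).1 hy
      exact Or.inr ⟨y, mem_insert_of_mem hy,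
        (D1 w hw hwI y hyW hyI (fun h => hyw h.symm) u huI h2).symm⟩
    · exact Or.inl (mem_insert_of_mem ((hY w u).2 ⟨hu, huI, h1, h2⟩))
  have E5 : ∀ w ∈ W, w ∉ I → (∃ y ∈ I, ¬ G.Adj w y) → (Y w).Nonempty →
      Step G (insert w (A w)) (insert w (Y w)) := by
    intro w hw hwI ⟨a, ha, hwa⟩ ⟨y, hy⟩
    obtain ⟨hyW, hyI, hyw, hyn⟩ := (hY _ y).1 hy
    have hAY : ∀ b ∈ I, ¬ G.Adj w b → ∀ z ∈ Y w, G.Adj z b := by
      intro b hb hwb z hz
      obtain ⟨hzW, hzI, hzw, hzn⟩ := (hY _ z).1 hz
      exact D1 w hw hwI z hzW hzI (fun h => hzw h.symm) b hb hwb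
    obtain ⟨c, hc⟩ := hcrit w hw
    have hc' : ∀ b ∈ I, ¬ G.Adj w b → ∀ z ∈ Y w, z = c ∨ b = c := by
      intro b hb hwb z hz
      obtain ⟨hzW, hzI, hzw, hzn⟩ := (hY _ z).1 hz
      exact hc z hzW b (hIW hb) hzw (fun h => hwI (h ▸ hb)) hzn hwb (hAY b hb hwb z hz)
    by_cases hone : ∀ z ∈ Y w, z = y
    · -- Y w = {y}
      refine step_of y (by simp [hy]) ?_ ?_ ?_
      · rw [mem_insert, not_or]
        exact ⟨hyw, fun h => hyI ((hA w y).1 h).1⟩
      · intro z hz hzy
        rw [mem_insert] at hz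
        rcases hz with h | h
        · simp [h]
        · exact absurd (hone z h) hzy
      · intro z hz hzn
        rw [mem_insert] at hz
        rcases hz with h | h
        · exact absurd (by simp [h]) hzn
        · obtain ⟨hzI, hwz⟩ := (hA w z).1 h
          exact hAY z hzI hwz y hy
    · push Not at hone
      obtain ⟨z, hz, hzy⟩ := hone
      -- then A w = {a} with a = c
      have hac : a = c := by
        rcases hc' a ha hwa y hy with h | h
        · rcases hc' a ha hwa z hz with h' | h'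
          · exact absurd (h'.trans h.symm) hzy
          · exact h'
        · exact h
      have hAone : ∀ b ∈ I, ¬ G.Adj w b → b = a := by
        intro b hb hwb
        have hbc : b = c := by
          rcases hc' b hb hwb y hy with h | h
          · rcases hc' b hb hwb z hz with h' | h'
            · exact absurd (h'.trans h.symm) hzy
            · exact h'
          · exact h
        exact hbc.trans hac.symm
      apply Step.symm
      refine step_of a (mem_insert_of_mem ((hA w a).2 ⟨ha, hwa⟩)) ?_ ?_ ?_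
      · rw [mem_insert, not_or]
        exact ⟨fun h => hwI (h ▸ ha), fun h => ((hY w a).1 h).2.1 ha⟩
      · intro u hu hua
        rw [mem_insert] at hu
        rcases hu with h | h
        · simp [h]
        · obtain ⟨h1, h2⟩ := (hA w u).1 h
          exact absurd (hAone u h1 h2) hua
      · intro u hu hun
        rw [mem_insert] at hu
        rcases hu with h | h
        · exact absurd (by simp [h]) hun
        · exact (hAY a ha hwa u h).symm
  have MneM : ∀ w w', w' ∉ I → w ≠ w' → insert w (A w) ≠ insert w' (A w') := by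
    intro w w' hw'I hne he
    have : w' ∈ insert w (A w) := by rw [he]; simp
    rw [mem_insert] at this
    rcases this with h | h
    · exact hne h.symm
    · exact hw'I ((hA w w').1 h).1
  -- step (i)
  by_cases h1 : ∃ w ∈ W, ∃ w' ∈ W, w ∉ I ∧ w' ∉ I ∧ w ≠ w' ∧ (∃ y ∈ I, ¬ G.Adj w y) ∧
      (∃ y ∈ I, ¬ G.Adj w' y) ∧ ¬ G.Adj w w'
  · obtain ⟨w, hw, w', hw', hwI, hw'I, hne, hwA', hw'A', hnadj⟩ := h1
    have e1 : w' ∈ Y w := (hY w w').2 ⟨hw', hw'I, fun h => hne h.symm, hnadj⟩
    have e2 : w ∈ Y w' := (hY w' w).2 ⟨hw, hwI, hne, fun h => hnadj h.symm⟩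
    have hsub : ∀ a ∈ W, ∀ b ∈ W, a ∉ I → b ∉ I → (∃ y ∈ I, ¬ G.Adj a y) → a ≠ b →
        a ∈ Y b → b ∈ Y a → insert a (Y a) ⊆ insert b (Y b) := by
      intro a ha b hb haI hbI haA hab hab1 hba1 u hu
      rw [mem_insert] at hu
      rcases hu with h | h
      · rw [h]; exact mem_insert_of_mem hab1
      · by_cases hub : u = b
        · rw [hub]; simp
        · obtain ⟨q1, q2, q3, q4⟩ := (hY a u).1 h
          refine mem_insert_of_mem ((hY b u).2 ⟨q1, q2, hub, ?_⟩)
          exact E3 a ha haI haA b (mem_insert_of_mem hba1) u (mem_insert_of_mem h)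
    have hNN : insert w (Y w) = insert w' (Y w') :=
      Subset.antisymm (hsub w hw w' hw' hwI hw'I hwA' hne e2 e1)
        (hsub w' hw' w hw hw'I hwI hw'A' hne.symm e1 e2)
    refine Or.inr (Or.inl ⟨I, insert w (A w), insert w (Y w), insert w' (A w'), mI,
      E1 w hw hwI hwA', E4 w hw hwI hwA' ⟨w', e1⟩, E1 w' hw' hw'I hw'A', E2 w hw hwI,
      E5 w hw hwI hwA' ⟨w', e1⟩, ?_, (E2 w' hw' hw'I).symm, ?_, MneM w w' hw'I hne⟩)
    · rw [hNN]; exact (E5 w' hw' hw'I hw'A' ⟨w, e2⟩).symm
    · intro he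
      exact hwI (he ▸ mem_insert_self _ _)
  push Not at h1
  -- step (ii)
  by_cases h2 : ∃ w ∈ W, ∃ w' ∈ W, w ∉ I ∧ w' ∉ I ∧ w ≠ w' ∧ (∃ y ∈ I, ¬ G.Adj w y) ∧
      (∃ y ∈ I, ¬ G.Adj w' y) ∧ (∀ u ∈ Y w, u ∉ Y w')
  · obtain ⟨w, hw, w', hw', hwI, hw'I, hne, hwA', hw'A', hdis⟩ := h2
    have mp : MD G W {w, w'} := by
      refine md_pair hw hw' hne (fun v hv h1 h2 => ?_) hno
      by_cases hvI : v ∈ I
      · by_cases h3 : G.Adj w v
        · exact Or.inl h3.symm
        · exact Or.inr (D1 w hw hwI w' hw' hw'I hne v hvI h3).symm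
      · by_cases h3 : G.Adj w v
        · exact Or.inl h3.symm
        · right
          by_contra hcon
          exact hdis v ((hY w v).2 ⟨hv, hvI, h1, h3⟩)
            ((hY w' v).2 ⟨hv, hvI, h2, fun h => hcon h.symm⟩)
    have st : ∀ a ∈ W, ∀ b ∈ W, a ∉ I → b ∉ I → a ≠ b →
        Step G (insert a (A a)) {a, b} := by
      intro a ha b hb haI hbI hab
      refine step_of b (by simp) ?_ ?_ ?_
      · rw [mem_insert, not_or]
        exact ⟨fun h => hab h.symm, fun h => hbI ((hA a b).1 h).1⟩
      · intro z hz hzb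
        simp only [mem_insert, mem_singleton] at hz
        rcases hz with h | h
        · simp [h]
        · exact absurd h hzb
      · intro z hz hzn
        rw [mem_insert] at hz
        rcases hz with h | h
        · exact absurd (by simp [h]) hzn
        · obtain ⟨q1, q2⟩ := (hA a z).1 h
          exact D1 a ha haI b hb hbI hab z q1 q2
    refine Or.inr (Or.inl ⟨I, insert w (A w), {w, w'}, insert w' (A w'), mI,
      E1 w hw hwI hwA', mp, E1 w' hw' hw'I hw'A', E2 w hw hwI,
      st w hw w' hw' hwI hw'I hne, ?_, (E2 w' hw' hw'I).symm, ?_, MneM w w' hw'I hne⟩)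
    · have := (st w' hw' w hw hw'I hwI hne.symm).symm
      rwa [pair_comm] at this
    · intro he
      exact hwI (he ▸ mem_insert_self _ _)
  push Not at h2
  -- step (iii)
  by_cases h3 : ∃ w ∈ W, ∃ w' ∈ W, w ∉ I ∧ w' ∉ I ∧ w ≠ w' ∧ (∃ y ∈ I, ¬ G.Adj w y) ∧
      (∃ y ∈ I, ¬ G.Adj w' y) ∧ (∀ u ∈ Y w', u ∈ Y w)
  · obtain ⟨w, hw, w', hw', hwI, hw'I, hne, hwA', hw'A', hsub⟩ := h3
    have hadj : G.Adj w w' := h1 w hw w' hw' hwI hw'I hne hwA' hw'A'
    obtain ⟨z, hz, hz'⟩ := h2 w hw w' hw' hwI hw'I hne hwA' hw'A'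
    have hwN' : w ∉ insert w' (Y w') := by
      rw [mem_insert, not_or]
      exact ⟨hne, fun h => ((hY w' w).1 h).2.2.2 hadj.symm⟩
    have hw'N : w' ∉ insert w (Y w) := by
      rw [mem_insert, not_or]
      exact ⟨hne.symm, fun h => ((hY w w').1 h).2.2.2 hadj⟩
    refine Or.inr (Or.inr ⟨I, insert w (A w), insert w (Y w), insert w' (Y w'),
      insert w' (A w'), mI, E1 w hw hwI hwA', E4 w hw hwI hwA' ⟨z, hz⟩,
      E4 w' hw' hw'I hw'A' ⟨z, hz'⟩, E1 w' hw' hw'I hw'A', E2 w hw hwI,
      E5 w hw hwI hwA' ⟨z, hz⟩, ?_, (E5 w' hw' hw'I hw'A' ⟨z, hz'⟩).symm,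
      (E2 w' hw' hw'I).symm, ?_, ?_, ?_, MneM w w' hw'I hne, ?_⟩)
    · refine step_of w' (by simp) hw'N ?_ ?_
      · intro u hu huw
        rw [mem_insert] at hu
        rcases hu with h | h
        · exact absurd h huw
        · exact mem_insert_of_mem (hsub u h)
      · intro u hu hun
        rw [mem_insert] at hu
        rw [mem_insert, not_or] at hun
        rcases hu with h | h
        · exact h ▸ hadj.symm
        · by_contra hcon
          obtain ⟨q1, q2, q3, q4⟩ := (hY w u).1 h
          exact hun.2 ((hY w' u).2 ⟨q1, q2, hun.1, hcon⟩)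
    · intro he
      exact hwI (he ▸ mem_insert_self _ _)
    · intro he
      exact hw'I (he ▸ mem_insert_self _ _)
    · intro he
      exact hwN' (he ▸ mem_insert_self _ _)
    · intro he
      have : w ∈ insert w' (A w') := he ▸ mem_insert_self _ _
      rw [mem_insert] at this
      rcases this with h | h
      · exact hne h
      · exact hwI ((hA w' w).1 h).1
  push Not at h3
  -- step (iv)
  obtain ⟨w, hw, hwI, y, hy, hwy⟩ := ht
  have hwA' : ∃ y ∈ I, ¬ G.Adj w y := ⟨y, hy, hwy⟩
  obtain ⟨x, hx, x', hx', hxx, hwx, hwx'⟩ := htwo w hw hwI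
  have hxne : ∀ u, u ∉ I → ({x, u} : Finset V) ≠ {x', u} := by
    intro u huI he
    have : x ∈ ({x', u} : Finset V) := he ▸ (by simp)
    simp only [mem_insert, mem_singleton] at this
    rcases this with h | h
    · exact hxx h
    · exact huI (h ▸ hx)
  by_cases hYe : (Y w).Nonempty
  · -- choose, for every neighbour x of w in I, a partner u ∈ Y w
    have hYc : ∀ u ∈ Y w, ∀ y ∈ I, G.Adj u y := by
      intro u hu y hy
      by_contra hcon
      obtain ⟨q1, q2, q3, q4⟩ := (hY w u).1 hu
      exact q4 (h1 w hw u q1 hwI q2 (fun h => q3 h.symm) hwA' ⟨y, hy, hcon⟩)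
    have part : ∀ x ∈ I, G.Adj w x → ∃ u ∈ Y w, MD G W {x, u} ∧ Step G (insert w (Y w)) {x, u} := by
      intro x hx hwx
      have hex : ∃ u ∈ Y w, ∀ v ∈ W, v ∉ I → v ≠ u → G.Adj v x ∨ G.Adj v u := by
        by_cases hv : ∃ v ∈ W, v ∉ I ∧ ¬ G.Adj v x
        · obtain ⟨v, hv, hvI, hvx⟩ := hv
          have hvw : v ≠ w := fun h => hvx (h ▸ hwx)
          obtain ⟨u, hu, huv⟩ := h3 v hv w hw hvI hwI hvw ⟨x, hx, hvx⟩ hwA'
          obtain ⟨q1, q2, q3, q4⟩ := (hY w u).1 hu
          have huv' : u ≠ v := by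
            rintro rfl
            exact q4 (h1 w hw u q1 hwI q2 (fun h => q3 h.symm) hwA' ⟨x, hx, hvx⟩)
          have hadjvu : G.Adj v u := by
            by_contra hcon
            exact huv ((hY v u).2 ⟨q1, q2, huv', hcon⟩)
          refine ⟨u, hu, fun z hz hzI hzu => ?_⟩
          by_cases hzv : z = v
          · exact Or.inr (hzv ▸ hadjvu)
          · exact Or.inl (D1 v hv hvI z hz hzI (fun h => hzv h.symm) x hx hvx)
        · push Not at hv
          obtain ⟨u, hu⟩ := hYe
          exact ⟨u, hu, fun z hz hzI _ => Or.inl (hv z hz hzI)⟩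
      obtain ⟨u, hu, hud⟩ := hex
      obtain ⟨q1, q2, q3, q4⟩ := (hY w u).1 hu
      refine ⟨u, hu, md_pair (hIW hx) q1 (fun h => q2 (h ▸ hx)) (fun v hv h4 h5 => ?_) hno, ?_⟩
      · by_cases hvI : v ∈ I
        · exact Or.inr (hYc u hu v hvI).symm
        · exact hud v hv hvI h5
      · refine step_of x (by simp) ?_ ?_ ?_
        · rw [mem_insert, not_or]
          exact ⟨fun h => hwI (h ▸ hx), fun h => ((hY w x).1 h).2.1 hx⟩
        · intro z hz hzx
          simp only [mem_insert, mem_singleton] at hz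
          rcases hz with h | h
          · exact absurd h hzx
          · exact mem_insert_of_mem (h ▸ hu)
        · intro z hz hzn
          rw [mem_insert] at hz
          rcases hz with h | h
          · exact h ▸ hwx.symm
          · exact (hYc z h x hx).symm
    obtain ⟨u, hu, m1, s1⟩ := part x hx hwx
    obtain ⟨u', hu', m2, s2⟩ := part x' hx' hwx'
    obtain ⟨q1, q2, q3, q4⟩ := (hY w u).1 hu
    obtain ⟨r1, r2, r3, r4⟩ := (hY w u').1 hu'
    refine Or.inr (Or.inl ⟨I, {x, u}, insert w (Y w), {x', u'}, mI, m1,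
      E4 w hw hwI hwA' hYe, m2, stI x hx u q1 q2 (hYc u hu), s1.symm, s2,
      (stI x' hx' u' r1 r2 (hYc u' hu')).symm, ?_, ?_⟩)
    · intro he
      exact hwI (he ▸ mem_insert_self _ _)
    · intro he
      have : x ∈ ({x', u'} : Finset V) := he ▸ (by simp)
      simp only [mem_insert, mem_singleton] at this
      rcases this with h | h
      · exact hxx h
      · exact r2 (h ▸ hx)
  · -- w is adjacent to everything outside I
    have hwall : ∀ v ∈ W, v ∉ I → v ≠ w → G.Adj v w := by
      intro v hv hvI hvw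
      by_contra hcon
      exact hYe ⟨v, (hY w v).2 ⟨hv, hvI, hvw, fun h => hcon h.symm⟩⟩
    have honly : ∀ v ∈ W, v ∉ I → v ≠ w → ∀ z ∈ I, G.Adj v z := by
      intro v hv hvI hvw z hz
      by_contra hcon
      obtain ⟨u, hu, -⟩ := h2 w hw v hv hwI hvI (fun h => hvw h.symm) hwA' ⟨z, hz, hcon⟩
      exact hYe ⟨u, hu⟩
    obtain ⟨u, hu, hyu⟩ := hnoniso y (hIW hy)
    have huI : u ∉ I := fun h => hIi y hy u h hyu
    have huw : u ≠ w := by rintro rfl; exact hwy hyu.symm
    have huc := honly u hu huI huw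
    have mwu : MD G W {w, u} := by
      refine md_pair hw hu (fun h => huw h.symm) (fun v hv h4 h5 => ?_) hno
      by_cases hvI : v ∈ I
      · exact Or.inr (huc v hvI).symm
      · exact Or.inl (hwall v hv hvI h4)
    have mxu : ∀ x ∈ I, G.Adj w x → MD G W {x, u} := by
      intro x hx hwx
      refine md_pair (hIW hx) hu (fun h => huI (h ▸ hx)) (fun v hv h4 h5 => ?_) hno
      by_cases hvI : v ∈ I
      · exact Or.inr (huc v hvI).symm
      · left
        by_cases hvw : v = w
        · exact hvw ▸ hwx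
        · exact honly v hv hvI hvw x hx
    have sxu : ∀ x ∈ I, G.Adj w x → Step G {x, u} {w, u} := by
      intro x hx hwx
      refine step_of w (by simp) ?_ ?_ ?_
      · simp only [mem_insert, mem_singleton, not_or]
        exact ⟨fun h => hwI (h ▸ hx), fun h => huw h.symm⟩
      · intro z hz hzw
        simp only [mem_insert, mem_singleton] at hz ⊢
        rcases hz with h | h
        · exact absurd h hzw
        · exact Or.inr h
      · intro z hz hzn
        simp only [mem_insert, mem_singleton, not_or] at hz hzn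
        rcases hz with h | h
        · exact h ▸ hwx
        · exact absurd h hzn.2
    refine Or.inr (Or.inl ⟨I, {x, u}, {w, u}, {x', u}, mI, mxu x hx hwx, mwu, mxu x' hx' hwx',
      stI x hx u hu huI huc, sxu x hx hwx, (sxu x' hx' hwx').symm,
      (stI x' hx' u hu huI huc).symm, ?_, hxne u huI⟩)
    intro he
    exact hwI (he ▸ mem_insert_self _ _)

/-- Critical sets have short cycles. -/
theorem sc_critical [Nonempty V] {W : Finset V} (hns : ¬ Starlike G W)
    (hcrit : ∀ v ∈ W, ∃ c, ∀ a ∈ W, ∀ b ∈ W, a ≠ v → b ≠ v → ¬ G.Adj v a → ¬ G.Adj v b →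
      G.Adj a b → a = c ∨ b = c) : SC G W := by
  classical
  have hnoniso : ∀ z ∈ W, ∃ u ∈ W, G.Adj z u := by
    intro z hz
    by_contra hcon
    push Not at hcon
    obtain ⟨c, hc⟩ := hcrit z hz
    refine hns ⟨c, fun a ha b hb hab => hc a ha b hb ?_ ?_ (hcon a ha) (hcon b hb) hab⟩
    · rintro rfl; exact hcon b hb hab
    · rintro rfl; exact hcon a ha hab.symm
  have hedge : ∀ c, ∃ a ∈ W, ∃ b ∈ W, G.Adj a b ∧ a ≠ c ∧ b ≠ c := by
    intro c
    by_contra hcon
    push Not at hcon
    refine hns ⟨c, fun a ha b hb hab => ?_⟩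
    by_cases h : a = c
    · exact Or.inl h
    · exact Or.inr (hcon a ha b hb hab h)
  by_cases huniv : ∃ v ∈ W, ∀ z ∈ W, z ≠ v → G.Adj z v
  · obtain ⟨v, hv, hv'⟩ := huniv
    obtain ⟨b, hb, c, hc, hbc, hbv, hcv⟩ := hedge v
    exact sc_of_universal hv hv' hb hc hbv hcv hbc
  push Not at huniv
  -- a maximum independent set
  obtain ⟨I, hI, hmax'⟩ := Finset.exists_max_image
    (W.powerset.filter (fun Y => Indep G Y)) Finset.card
    ⟨∅, mem_filter.2 ⟨mem_powerset.2 (empty_subset _), fun a ha => absurd ha (notMem_empty a)⟩⟩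
  simp only [mem_filter, mem_powerset] at hI hmax'
  obtain ⟨hIW, hIi⟩ := hI
  have hmax : ∀ Y, Y ⊆ W → Indep G Y → Y.card ≤ I.card := fun Y h1 h2 => hmax' Y ⟨h1, h2⟩
  have hId : ∀ u ∈ W, u ∈ I ∨ ∃ y ∈ I, G.Adj u y := by
    intro u hu
    by_contra hcon
    push Not at hcon
    obtain ⟨hu1, hu2⟩ := hcon
    have := hmax (insert u I) (insert_subset hu hIW) ?_
    · rw [card_insert_of_notMem hu1] at this
      omega
    · intro a ha b hb hab
      rw [mem_insert] at ha hb
      rcases ha with rfl | ha <;> rcases hb with rfl | hb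
      · exact G.irrefl hab
      · exact hu2 b hb hab
      · exact hu2 a ha hab.symm
      · exact hIi a ha b hb hab
  obtain ⟨v0, hv0⟩ : ∃ v, v ∈ W := by
    obtain ⟨a, ha, -⟩ := hedge (Classical.arbitrary V)
    exact ⟨a, ha⟩
  have hI2 : ∃ x ∈ I, ∃ x' ∈ I, x ≠ x' := by
    obtain ⟨x, hx⟩ : ∃ x, x ∈ I := by
      rcases hId v0 hv0 with h | ⟨y, hy, -⟩
      · exact ⟨_, h⟩
      · exact ⟨y, hy⟩
    obtain ⟨z, hz, hzx, hzn⟩ := huniv x (hIW hx)
    rcases hId z hz with h | ⟨y, hy, hzy⟩
    · exact ⟨x, hx, z, h, hzx.symm⟩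
    · refine ⟨x, hx, y, hy, ?_⟩
      rintro rfl
      exact hzn hzy
  by_cases hpriv : ∃ x ∈ I, ∃ p ∈ W, p ∉ I ∧ G.Adj p x ∧ ∀ y ∈ I, y ≠ x → ¬ G.Adj p y
  · obtain ⟨x, hx, p, hp, hpI, hpx, hpy⟩ := hpriv
    have hxp : x ≠ p := fun h => hpI (h ▸ hx)
    have hJne : (I.erase x).Nonempty := by
      obtain ⟨a, ha, b, hb, hab⟩ := hI2
      by_cases h : a = x
      · exact ⟨b, mem_erase.2 ⟨fun h' => hab (h.trans h'.symm), hb⟩⟩
      · exact ⟨a, mem_erase.2 ⟨h, ha⟩⟩
    have hJi : Indep G (I.erase x) := fun a ha b hb =>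
      hIi a (mem_of_mem_erase ha) b (mem_of_mem_erase hb)
    have hxa : ∀ y ∈ I.erase x, ¬ G.Adj x y := fun y hy => hIi x hx y (mem_of_mem_erase hy)
    have hpa : ∀ y ∈ I.erase x, ¬ G.Adj p y := fun y hy =>
      hpy y (mem_of_mem_erase hy) (ne_of_mem_erase hy)
    have hxJ : x ∉ I.erase x := by simp
    have hpJ : p ∉ I.erase x := fun h => hpI (mem_of_mem_erase h)
    have hcard : (I.erase x).card + 1 = I.card := card_erase_add_one hx
    -- C1
    have C1 : ∀ u ∈ W, u ∉ I.erase x → u ≠ x → u ≠ p → ∀ y ∈ I.erase x, G.Adj u y := by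
      intro u hu huJ hux hup y hy
      have huI : u ∉ I := fun h => huJ (mem_erase.2 ⟨hux, h⟩)
      have hyI := mem_of_mem_erase hy
      have hyx := ne_of_mem_erase hy
      by_contra hn
      obtain ⟨c, hc⟩ := hcrit y (hIW hyI)
      have c1 := hc x (hIW hx) p hp hyx.symm (fun h => hpI (h ▸ hyI))
        (hIi y hyI x hx) (fun h => hpa y hy h.symm) hpx.symm
      have huy : u ≠ y := fun h => huI (h ▸ hyI)
      have hyu : ¬ G.Adj y u := fun h => hn h.symm
      by_cases hs : ∃ s ∈ I, s ≠ x ∧ G.Adj u s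
      · obtain ⟨s, hs, hsx, hus⟩ := hs
        have hsy : s ≠ y := by rintro rfl; exact hn hus
        have hsp : s ≠ p := fun h => hpI (h ▸ hs)
        have c2 := hc u hu s (hIW hs) huy hsy hyu (hIi y hyI s hs) hus
        rcases c1 with c1 | c1 <;> rcases c2 with c2 | c2
        · exact hux (c2.trans c1.symm)
        · exact hsx (c2.trans c1.symm)
        · exact hup (c2.trans c1.symm)
        · exact hsp (c2.trans c1.symm)
      · push Not at hs
        have hux' : G.Adj u x := by
          rcases hId u hu with h | ⟨s, hs', hus⟩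
          · exact absurd h huI
          · by_cases h : s = x
            · exact h ▸ hus
            · exact absurd hus (hs s hs' h)
        by_cases hup' : G.Adj u p
        · have c2 := hc u hu x (hIW hx) huy hyx.symm hyu (hIi y hyI x hx) hux'
          have c3 := hc u hu p hp huy (fun h => hpI (h ▸ hyI)) hyu
            (fun h => hpa y hy h.symm) hup'
          rcases c1 with c1 | c1 <;> rcases c2 with c2 | c2 <;> rcases c3 with c3 | c3
          · exact hux (c2.trans c1.symm)
          · exact hux (c2.trans c1.symm)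
          · exact hux (c3.trans c1.symm)
          · exact hxp (c1.trans c3.symm)
          · exact hup (c2.trans c1.symm)
          · exact hup (c2.trans c1.symm)
          · exact hup (c3.trans c1.symm)
          · exact hxp (c2.trans c1.symm)
        · have := hmax (insert u (insert p (I.erase x))) ?_ ?_
          · rw [card_insert_of_notMem, card_insert_of_notMem hpJ] at this
            · omega
            · rw [mem_insert, not_or]; exact ⟨hup, huJ⟩
          · exact insert_subset hu (insert_subset hp ((erase_subset _ _).trans hIW))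
          · intro a ha b hb hab
            simp only [mem_insert] at ha hb
            have huJ' : ∀ z ∈ I.erase x, ¬ G.Adj u z := fun z hz =>
              hs z (mem_of_mem_erase hz) (ne_of_mem_erase hz)
            rcases ha with rfl | rfl | ha <;> rcases hb with rfl | rfl | hb
            · exact G.irrefl hab
            · exact hup' hab
            · exact huJ' b hb hab
            · exact hup' hab.symm
            · exact G.irrefl hab
            · exact hpa b hb hab
            · exact huJ' a ha hab.symm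
            · exact hpa a ha hab.symm
            · exact hJi a ha b hb hab
    -- C2
    have C2 : ∀ a ∈ W, a ∉ I.erase x → (∀ y ∈ I.erase x, ¬ G.Adj a y) → ∀ u ∈ W, ∀ u' ∈ W,
        u ∉ I.erase x → u ≠ x → u ≠ p → u' ∉ I.erase x → u' ≠ x → u' ≠ p → u ≠ a → u' ≠ a →
        ¬ G.Adj u a → ¬ G.Adj u' a → u = u' := by
      intro a ha haJ haa u hu u' hu' huJ hux hup hu'J hu'x hu'p hua hu'a hn hn'
      by_contra hne
      obtain ⟨c, hc⟩ := hcrit a ha
      have hyc : ∀ y ∈ I.erase x, y = c := by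
        intro y hy
        have hya : y ≠ a := fun h => haJ (h ▸ hy)
        have hyW := hIW (mem_of_mem_erase hy)
        have c1 := hc u hu y hyW hua hya (fun h => hn h.symm) (haa y hy) (C1 u hu huJ hux hup y hy)
        have c2 := hc u' hu' y hyW hu'a hya (fun h => hn' h.symm) (haa y hy)
          (C1 u' hu' hu'J hu'x hu'p y hy)
        rcases c1 with c1 | c1
        · rcases c2 with c2 | c2
          · exact absurd (c1.trans c2.symm) hne
          · exact c2
        · exact c1
      obtain ⟨y, hy⟩ := hJne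
      have hcJ : c ∈ I.erase x := hyc y hy ▸ hy
      have hJone : (I.erase x).card ≤ 1 := by
        rw [card_le_one]
        intro z hz z' hz'
        exact (hyc z hz).trans (hyc z' hz').symm
      by_cases huu : G.Adj u u'
      · rcases hc u hu u' hu' hua hu'a (fun h => hn h.symm) (fun h => hn' h.symm) huu with h | h
        · exact huJ (h ▸ hcJ)
        · exact hu'J (h ▸ hcJ)
      · have := hmax {a, u, u'} ?_ ?_
        · rw [card_insert_of_notMem, card_pair hne] at this
          · omega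
          · simp only [mem_insert, mem_singleton, not_or]
            exact ⟨hua.symm, hu'a.symm⟩
        · intro z hz
          simp only [mem_insert, mem_singleton] at hz
          rcases hz with rfl | rfl | rfl <;> assumption
        · intro z hz z' hz' hzz
          simp only [mem_insert, mem_singleton] at hz hz'
          rcases hz with rfl | rfl | rfl <;> rcases hz' with rfl | rfl | rfl
          · exact G.irrefl hzz
          · exact hn hzz.symm
          · exact hn' hzz.symm
          · exact hn hzz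
          · exact G.irrefl hzz
          · exact huu hzz
          · exact hn' hzz
          · exact huu hzz.symm
          · exact G.irrefl hzz
    refine sc_private huniv (hIW hx) hp hpx.symm ((erase_subset _ _).trans hIW) hxJ hpJ hJne hJi
      hxa hpa C1 ?_ ?_ ?_
    · intro u hu u' hu' h1 h2 h3 h4 h5 h6 h7 h8
      exact C2 x (hIW hx) hxJ hxa u hu u' hu' h1 h2 h3 h4 h5 h6 h2 h5 h7 h8
    · intro u hu u' hu' h1 h2 h3 h4 h5 h6 h7 h8
      exact C2 p hp hpJ hpa u hu u' hu' h1 h2 h3 h4 h5 h6 h3 h6 h7 h8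
    · obtain ⟨y, hy⟩ := hJne
      obtain ⟨u, hu, hyu⟩ := hnoniso y (hIW (mem_of_mem_erase hy))
      refine ⟨u, hu, fun h => hJi y hy u h hyu, ?_, ?_⟩
      · rintro rfl; exact hxa y hy hyu.symm
      · rintro rfl; exact hpa y hy hyu.symm
  · push Not at hpriv
    refine sc_no_private huniv hcrit hnoniso hIW hIi hId hI2 ?_
    intro u hu huI
    rcases hId u hu with h | ⟨s, hs, hus⟩
    · exact absurd h huI
    · obtain ⟨s', hs', hne, hus'⟩ := hpriv s hs u hu huI hus
      exact ⟨s, hs, s', hs', hne.symm, hus, hus'⟩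

/-- Every finite vertex set whose edges do not all share a vertex carries a short cycle of
minimal dominating sets. -/
theorem sc_of_not_starlike [Nonempty V] (W : Finset V) (hns : ¬ Starlike G W) : SC G W := by
  classical
  induction hn : W.card using Nat.strong_induction_on generalizing W with
  | _ n ih =>
    by_cases h : ∃ v ∈ W, ¬ Starlike G (W.filter (fun u => u ≠ v ∧ ¬ G.Adj v u))
    · obtain ⟨v, hv, hv'⟩ := h
      have hlt : (W.filter (fun u => u ≠ v ∧ ¬ G.Adj v u)).card < n := by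
        rw [← hn]
        apply card_lt_card
        refine ⟨filter_subset _ _, fun hsub => ?_⟩
        have := hsub hv
        simp at this
      exact sc_of_sub hv _ (fun u => by rw [mem_filter]) (ih _ hlt _ hv' rfl)
    · push Not at h
      apply sc_critical hns
      intro v hv
      obtain ⟨c, hc⟩ := h v hv
      refine ⟨c, fun a ha b hb h1 h2 h3 h4 hab => hc a ?_ b ?_ hab⟩
      · rw [mem_filter]; exact ⟨ha, h1, h3⟩
      · rw [mem_filter]; exact ⟨hb, h2, h4⟩

end Relative


section Cycles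

variable {W : Type*} {R : SimpleGraph W}

theorem cyc3 {a b c : W} (hab : R.Adj a b) (hbc : R.Adj b c) (hca : R.Adj c a) :
    ∃ w : R.Walk a a, w.IsCycle ∧ w.length = 3 := by
  refine ⟨.cons hab (.cons hbc (.cons hca .nil)), ?_, rfl⟩
  rw [Walk.cons_isCycle_iff]
  have h1 := hab.ne
  have h2 := hbc.ne
  have h3 := hca.ne
  constructor
  · simp [Walk.cons_isPath_iff, h1, h2, h3, h1.symm, h2.symm, h3.symm]
  · simp [h1, h2, h3, h1.symm, h2.symm, h3.symm]

theorem cyc4 {a b c d : W} (hab : R.Adj a b) (hbc : R.Adj b c) (hcd : R.Adj c d)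
    (hda : R.Adj d a) (hac : a ≠ c) (hbd : b ≠ d) :
    ∃ w : R.Walk a a, w.IsCycle ∧ w.length = 4 := by
  refine ⟨.cons hab (.cons hbc (.cons hcd (.cons hda .nil))), ?_, rfl⟩
  rw [Walk.cons_isCycle_iff]
  have h1 := hab.ne
  have h2 := hbc.ne
  have h3 := hcd.ne
  have h4 := hda.ne
  constructor
  · simp [Walk.cons_isPath_iff, h1, h2, h3, h4, h1.symm, h2.symm, h3.symm, h4.symm, hac, hbd,
      hac.symm, hbd.symm]
  · simp [h1, h2, h3, h4, h1.symm, h2.symm, h3.symm, h4.symm, hac, hbd,
      hac.symm, hbd.symm]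

theorem cyc5 {a b c d e : W} (hab : R.Adj a b) (hbc : R.Adj b c) (hcd : R.Adj c d)
    (hde : R.Adj d e) (hea : R.Adj e a) (hac : a ≠ c) (had : a ≠ d) (hbd : b ≠ d)
    (hbe : b ≠ e) (hce : c ≠ e) :
    ∃ w : R.Walk a a, w.IsCycle ∧ w.length = 5 := by
  refine ⟨.cons hab (.cons hbc (.cons hcd (.cons hde (.cons hea .nil)))), ?_, rfl⟩
  rw [Walk.cons_isCycle_iff]
  have h1 := hab.ne
  have h2 := hbc.ne
  have h3 := hcd.ne
  have h4 := hde.ne
  have h5 := hea.ne
  constructor
  · simp [Walk.cons_isPath_iff, h1, h2, h3, h4, h5, h1.symm, h2.symm, h3.symm, h4.symm, h5.symm,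
      hac, hbd, had, hbe, hce, hac.symm, hbd.symm, had.symm, hbe.symm, hce.symm]
  · simp [h1, h2, h3, h4, h5, h1.symm, h2.symm, h3.symm, h4.symm, h5.symm,
      hac, hbd, had, hbe, hce, hac.symm, hbd.symm, had.symm, hbe.symm, hce.symm]

theorem three_of_cycle {a : W} (w : R.Walk a a) (hw : w.IsCycle) :
    ∃ x y z : W, x ≠ y ∧ y ≠ z ∧ x ≠ z := by
  have h3 := hw.three_le_length
  have hn := hw.support_nodup
  have hl : w.support.tail.length = w.length := by simp
  match hs : w.support.tail with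
  | [] => simp [hs] at hl; omega
  | [_] => simp [hs] at hl; omega
  | [_, _] => simp [hs] at hl; omega
  | x :: y :: z :: _ =>
    rw [hs] at hn
    simp only [List.nodup_cons, List.mem_cons, not_or] at hn
    exact ⟨x, y, z, hn.1.1, hn.2.1.1, hn.1.2.1⟩

end Cycles

section Main

variable {V : Type*} [DecidableEq V] {G : SimpleGraph V}

/-- If all edges share the vertex `c`, a minimal dominating set is determined by whether it
contains `c`. -/
theorem mds_eq_of_starlike {c : V} (hc : ∀ a b, G.Adj a b → a = c ∨ b = c)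
    {M M' : Finset V} (hM : IsMinimalDominating G M) (hM' : IsMinimalDominating G M')
    (h : c ∈ M ↔ c ∈ M') : M = M' := by
  have key : ∀ M, IsMinimalDominating G M → ∀ v, v ≠ c → (v ∈ M ↔ (c ∉ M ∨ ¬ G.Adj v c)) := by
    intro M hM v hvc
    constructor
    · intro hv
      by_contra hcon
      push Not at hcon
      obtain ⟨hcM, hadj⟩ := hcon
      refine hM.2 v hv (fun u => ?_)
      by_cases huv : u = v
      · subst huv
        exact Or.inr ⟨c, mem_erase.2 ⟨hvc.symm, hcM⟩, hadj⟩
      rcases hM.1 u with h | ⟨w, hw, huw⟩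
      · exact Or.inl (mem_erase.2 ⟨huv, h⟩)
      · by_cases hwv : w = v
        · subst hwv
          rcases hc u w huw with h | h
          · subst h
            exact Or.inl (mem_erase.2 ⟨huv, hcM⟩)
          · exact absurd h hvc
        · exact Or.inr ⟨w, mem_erase.2 ⟨hwv, hw⟩, huw⟩
    · intro h
      rcases hM.1 v with h' | ⟨w, hw, hvw⟩
      · exact h'
      · rcases hc v w hvw with h' | h'
        · exact absurd h' hvc
        · subst h'
          rcases h with h | h
          · exact absurd hw h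
          · exact absurd hvw h
  ext v
  by_cases hvc : v = c
  · subst hvc; exact h
  · rw [key M hM v hvc, key M' hM' v hvc, h]

theorem md_univ [Fintype V] {S : Finset V} (h : MD G univ S) : IsMinimalDominating G S :=
  ⟨fun v => h.1.2 v (mem_univ v), fun v hv hd => h.2 v hv ⟨subset_univ _, fun u _ => hd u⟩⟩

/-- Main theorem: a cycle in the reconfiguration graph forces a cycle of length 3, 4 or 5. -/
theorem main [Fintype V] (G : SimpleGraph V)
    (h : ∃ (M : {S : Finset V // IsMinimalDominating G S})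
      (w : (reconfigurationGraph G).Walk M M), w.IsCycle) :
    ∃ (M : {S : Finset V // IsMinimalDominating G S})
      (w : (reconfigurationGraph G).Walk M M), w.IsCycle ∧
        (w.length = 3 ∨ w.length = 4 ∨ w.length = 5) := by
  obtain ⟨M, w, hw⟩ := h
  have hVne : Nonempty V := by
    cases w with
    | nil => exact absurd rfl hw.ne_nil
    | cons hadj _ =>
      obtain ⟨v, -⟩ := hadj
      exact ⟨v⟩
  by_cases hs : Starlike G univ
  · obtain ⟨c, hc⟩ := hs
    have hc' : ∀ a b, G.Adj a b → a = c ∨ b = c := fun a b => hc a (mem_univ a) b (mem_univ b)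
    obtain ⟨x, y, z, hxy, hyz, hxz⟩ := three_of_cycle w hw
    have eq : ∀ p q : {S : Finset V // IsMinimalDominating G S},
        (c ∈ p.1 ↔ c ∈ q.1) → p = q := fun p q h =>
      Subtype.ext (mds_eq_of_starlike hc' p.2 q.2 h)
    exfalso
    by_cases h1 : c ∈ x.1 <;> by_cases h2 : c ∈ y.1 <;> by_cases h3 : c ∈ z.1
    · exact hxy (eq _ _ (by simp [h1, h2]))
    · exact hxy (eq _ _ (by simp [h1, h2]))
    · exact hxz (eq _ _ (by simp [h1, h3]))
    · exact hyz (eq _ _ (by simp [h2, h3]))
    · exact hyz (eq _ _ (by simp [h2, h3]))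
    · exact hxz (eq _ _ (by simp [h1, h3]))
    · exact hxy (eq _ _ (by simp [h1, h2]))
    · exact hxy (eq _ _ (by simp [h1, h2]))
  · rcases sc_of_not_starlike univ hs with ⟨a, b, c, ha, hb, hc, h1, h2, h3⟩ |
      ⟨a, b, c, d, ha, hb, hc, hd, h1, h2, h3, h4, n1, n2⟩ |
      ⟨a, b, c, d, e, ha, hb, hc, hd, he, h1, h2, h3, h4, h5, n1, n2, n3, n4, n5⟩
    · obtain ⟨w, hw, hl⟩ := cyc3 (R := reconfigurationGraph G)
        (a := ⟨a, md_univ ha⟩) (b := ⟨b, md_univ hb⟩) (c := ⟨c, md_univ hc⟩) h1 h2 h3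
      exact ⟨_, w, hw, Or.inl hl⟩
    · obtain ⟨w, hw, hl⟩ := cyc4 (R := reconfigurationGraph G)
        (a := ⟨a, md_univ ha⟩) (b := ⟨b, md_univ hb⟩) (c := ⟨c, md_univ hc⟩)
        (d := ⟨d, md_univ hd⟩) h1 h2 h3 h4
        (fun h => n1 (congrArg Subtype.val h)) (fun h => n2 (congrArg Subtype.val h))
      exact ⟨_, w, hw, Or.inr (Or.inl hl)⟩
    · obtain ⟨w, hw, hl⟩ := cyc5 (R := reconfigurationGraph G)
        (a := ⟨a, md_univ ha⟩) (b := ⟨b, md_univ hb⟩) (c := ⟨c, md_univ hc⟩)
        (d := ⟨d, md_univ hd⟩) (e := ⟨e, md_univ he⟩) h1 h2 h3 h4 h5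
        (fun h => n1 (congrArg Subtype.val h)) (fun h => n2 (congrArg Subtype.val h))
        (fun h => n3 (congrArg Subtype.val h)) (fun h => n4 (congrArg Subtype.val h))
        (fun h => n5 (congrArg Subtype.val h))
      exact ⟨_, w, hw, Or.inr (Or.inr hl)⟩

end Main

end Pool.Agent.Work.MP_fb0e57_co
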